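import Mathlib

set_option autoImplicit false

namespace Pool.Agent.Results.MP_7aff4e_co.RationalTan

open Finset

/-- The number of neighbours of `v` in `S`. -/
noncomputable def δ {V : Type} (G : SimpleGraph V) (v : V) (S : Set V) : ℕ :=
  (G.neighborSet v ∩ S).ncard

/-- The bipartition `S, Sᶜ` is equitable. -/
def Equitable {V : Type} (G : SimpleGraph V) (S : Set V) : Prop :=
  (∀ i ∈ S, ∀ j ∈ S, δ G i S = δ G j S ∧ δ G i Sᶜ = δ G j Sᶜ) ∧
    ∀ i ∉ S, ∀ j ∉ S, δ G i Sᶜ = δ G j Sᶜ ∧ δ G i S = δ G j S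

/-- `α` is realisable. -/
def Realisable (α : ℝ) : Prop :=
  ∃ (V : Type) (_ : Finite V) (G : SimpleGraph V) (S : Set V) (μ₁ μ₂ r : ℝ), G.Connected ∧
    S.Nonempty ∧ Sᶜ.Nonempty ∧ ¬ Equitable G S ∧
    (∀ i ∈ S, -(δ G i S : ℝ) + μ₁ * δ G i Sᶜ = r) ∧ (∀ j ∉ S, -(δ G j Sᶜ : ℝ) + μ₂ * δ G j S = r) ∧
    |μ₁ + μ₂| < 2 ∧ μ₂ < μ₁ ∧ α = Real.arctan (√(4 - (μ₁ + μ₂) ^ 2) / (μ₁ - μ₂))

theorem L1 (x x' y y' : ℕ) (μ r : ℝ) (h1 : -(x : ℝ) + μ * y = r) (h2 : -(x' : ℝ) + μ * y' = r)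
    (h : ¬ (x = x' ∧ y = y')) : ∃ q : ℚ, r = q := by
  have : (y : ℝ) - y' ≠ 0 := fun e => by
    have e : y = y' := by exact_mod_cast sub_eq_zero.1 e
    exact h ⟨by rw [e] at h1; exact_mod_cast (by linarith : (x : ℝ) = x'), e⟩
  refine ⟨-x + (x - x') / (y - y') * y, ?_⟩
  push_cast
  rw [← h1, show μ = (x - x') / (y - y') by field_simp; linarith]

theorem L2 (x y : ℕ) (μ : ℝ) (q : ℚ) (h : -(x : ℝ) + μ * y = q) (hy : y ≠ 0) : ∃ p : ℚ, μ = p := by
  refine ⟨(q + x) / y, ?_⟩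
  push_cast
  field_simp
  linarith

def Gr (c d e : ℕ) : SimpleGraph (Fin c ⊕ Fin c × Fin d × Fin e) where
  Adj
    | .inl i, .inl j => i ≠ j
    | .inl i, .inr y => y.1 = i ∧ y.2.2.1 < 2
    | .inr y, .inl i => y.1 = i ∧ y.2.2.1 < 2
    | .inr x, .inr y => y.1 = x.1 ∧ y.2.1 = x.2.1 ∧ y.2.2 ≠ x.2.2 ∧ ¬ (x.2.2.1 < 2 ∧ y.2.2.1 < 2)
  symm := ⟨by rintro (x | x) (y | y) <;> grind⟩
  loopless := ⟨by rintro (x | x) <;> simp⟩

theorem δ_eq {V W : Type} [Fintype V] [Fintype W] (G : SimpleGraph (V ⊕ W)) [DecidableRel G.Adj]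
    (v : V ⊕ W) : δ G v (Set.range .inl) = #{x | G.Adj v (.inl x)} ∧
      δ G v (Set.range .inl)ᶜ = #{x | G.Adj v (.inr x)} := by
  rw [Set.compl_range_inl]
  constructor <;> rw [← Set.ncard_coe_finset]
  · rw [← Set.ncard_image_of_injective _ (Sum.inl_injective (β := W))]
    refine congrArg Set.ncard (Set.ext ?_)
    rintro (x | x) <;> simp
  · rw [← Set.ncard_image_of_injective _ (Sum.inr_injective (α := V))]
    refine congrArg Set.ncard (Set.ext ?_)
    rintro (x | x) <;> simp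

theorem c2 (e : ℕ) : #{t : Fin (e + 3) | t.1 < 2} = 2 := by
  rw [show ({t | t.1 < 2} : Finset (Fin (e + 3))) = Iio ⟨2, by omega⟩ by ext; simp [Fin.lt_def],
    Fin.card_Iio]

theorem degs (c d e : ℕ) : (∀ i, δ (Gr (c + 1) d (e + 3)) (.inl i) (Set.range .inl) = c ∧
    δ (Gr (c + 1) d (e + 3)) (.inl i) (Set.range .inl)ᶜ = d * 2) ∧
    ∀ y, δ (Gr (c + 1) d (e + 3)) (.inr y) (Set.range .inl) = (if y.2.2.1 < 2 then 1 else 0) ∧
    δ (Gr (c + 1) d (e + 3)) (.inr y) (Set.range .inl)ᶜ = if y.2.2.1 < 2 then e + 1 else e + 2 := by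
  classical
  refine ⟨fun i => ?_, fun ⟨i, j, t⟩ => ?_⟩ <;> rw [(δ_eq _ _).1, (δ_eq _ _).2] <;> constructor
  · simp [Gr, filter_ne]
  · rw [show (univ.filter fun x => (Gr (c + 1) d (e + 3)).Adj (.inl i) (.inr x)) =
      {i} ×ˢ univ ×ˢ (univ.filter fun t : Fin (e + 3) => t.1 < 2) by
        ext x
        simp only [mem_filter, mem_univ, true_and, mem_product, mem_singleton]
        rfl]
    rw [card_product, card_product, c2]
    simp
  · dsimp only
    split_ifs with h <;> simp only [Gr, h, and_true, and_false] <;> simp [filter_eq]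
  · rw [show (univ.filter fun x => (Gr (c + 1) d (e + 3)).Adj (.inr (i, j, t)) (.inr x)) =
      {i} ×ˢ {j} ×ˢ (if t.1 < 2 then (univ.filter fun t : Fin (e + 3) => t.1 < 2)ᶜ else {t}ᶜ) by
        ext ⟨a, b, s⟩
        split_ifs with h <;> simp only [Gr, mem_filter, mem_univ, true_and, mem_product,
          mem_singleton, mem_compl, ne_eq, Fin.ext_iff] <;> omega]
    dsimp only
    split_ifs <;> rw [card_product, card_product, card_compl]
    · rw [c2]; simp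
    · simp

/-- The realisable angles are exactly those with rational `tan² α`. -/
theorem result (α : ℝ) (h0 : 0 < α) (h1 : α < Real.pi / 2) :
    Realisable α ↔ ∃ q : ℚ, Real.tan α ^ 2 = q := by
  constructor
  · rintro ⟨V, _, G, S, μ₁, μ₂, r, hc, ⟨a, ha⟩, ⟨b, hb⟩, hn, k1, k2, k3, k4, rfl⟩
    obtain ⟨q, rfl⟩ : ∃ q : ℚ, r = q := by
      by_contra c
      exact hn ⟨fun i hi j hj => not_not.1 fun h => c (L1 _ _ _ _ _ _ (k1 i hi) (k1 j hj) h),
        fun i hi j hj => not_not.1 fun h => c (L1 _ _ _ _ _ _ (k2 i hi) (k2 j hj) h)⟩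
    obtain ⟨p⟩ := hc a b
    obtain ⟨d, -, d1, d2⟩ := p.exists_boundary_dart S ha hb
    obtain ⟨m1, rfl⟩ := L2 _ _ _ _ (k1 _ d1) (Set.ncard_ne_zero_of_mem ⟨d.adj, d2⟩)
    obtain ⟨m2, rfl⟩ := L2 _ _ _ _ (k2 _ d2) (Set.ncard_ne_zero_of_mem ⟨d.adj.symm, d1⟩)
    refine ⟨(4 - (m1 + m2) ^ 2) / (m1 - m2) ^ 2, ?_⟩
    rw [Real.tan_arctan, div_pow, Real.sq_sqrt (by nlinarith [abs_lt.1 k3])]
    push_cast
    rfl
  · rintro ⟨q, hq⟩
    have ht := Real.tan_pos_of_pos_of_lt_pi_div_two h0 h1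
    obtain ⟨a, b, ha, hb, e⟩ : ∃ a b : ℕ, 0 < a ∧ 0 < b ∧ Real.tan α ^ 2 * b = a := by
      have : 0 < q.num := Rat.num_pos.2 (by exact_mod_cast hq ▸ pow_pos ht 2)
      refine ⟨q.num.toNat, q.den, by omega, q.pos, ?_⟩
      rw [hq, ← Int.cast_natCast q.num.toNat, Int.toNat_of_nonneg this.le]
      exact_mod_cast q.mul_den_eq_num
    have ha' : (0 : ℝ) < a := by exact_mod_cast ha
    have hb' : (0 : ℝ) < b := by exact_mod_cast hb
    obtain ⟨d1, d2⟩ := degs (6 * b + 2) (a + b) (2 * a)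
    refine ⟨_, inferInstance, Gr (6 * b + 2 + 1) (a + b) (2 * a + 3), Set.range .inl,
      (3 * b - a) / (a + b), -1, -(2 * a + 2), ?_, ⟨_, 0, rfl⟩,
      ⟨.inr (0, ⟨0, by omega⟩, 0), by simp⟩, fun h => ?_, ?_, ?_, ?_, ?_, ?_⟩
    · have r : ∀ i, (Gr (6 * b + 2 + 1) (a + b) (2 * a + 3)).Reachable (.inl 0) (.inl i) :=
        fun i => by
          by_cases h : 0 = i
          exacts [h ▸ .rfl, SimpleGraph.Adj.reachable h]
      have r' : ∀ y, y.2.2.1 < 2 → (Gr (6 * b + 2 + 1) (a + b) (2 * a + 3)).Reachable (.inl 0)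
          (.inr y) := fun y h => (r y.1).trans (SimpleGraph.Adj.reachable ⟨rfl, h⟩)
      refine (SimpleGraph.connected_iff_exists_forall_reachable _).2 ⟨.inl 0, ?_⟩
      rintro (i | ⟨i, j, t⟩)
      · exact r i
      · by_cases h : t.1 < 2
        · exact r' _ h
        · exact (r' (i, j, 0) (by simp)).trans (SimpleGraph.Adj.reachable
            ⟨rfl, rfl, fun e => h (by simp [show t = 0 from e]), fun e => h e.2⟩)
    · have := (h.2 (.inr (0, ⟨0, by omega⟩, 0)) (by simp) (.inr (0, ⟨0, by omega⟩, ⟨2, by omega⟩))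
        (by simp)).2
      simp [d2] at this
    · rintro _ ⟨i, rfl⟩
      rw [(d1 i).1, (d1 i).2]
      push_cast
      field_simp
      ring
    · rintro (i | y) h
      · simp at h
      · rw [(d2 y).1, (d2 y).2]
        split_ifs <;> push_cast <;> ring
    · rw [show (3 * b - a : ℝ) / (a + b) + -1 = (2 * b - 2 * a) / (a + b) by field_simp; ring,
        abs_lt, lt_div_iff₀ (by positivity), div_lt_iff₀ (by positivity)]
      constructor <;> linarith
    · rw [lt_div_iff₀ (by positivity)]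
      linarith
    · rw [show (4 : ℝ) - ((3 * b - a) / (a + b) + -1) ^ 2 =
          (Real.tan α * ((3 * b - a) / (a + b) - -1)) ^ 2 by
        rw [mul_pow, show Real.tan α ^ 2 = a / b by rw [← e]; field_simp]
        field_simp
        ring]
      have : (0 : ℝ) < (3 * b - a) / (a + b) - -1 := by
        rw [sub_pos, lt_div_iff₀ (by positivity)]
        linarith
      rw [Real.sqrt_sq (by positivity), mul_div_cancel_right₀ _ this.ne',
        Real.arctan_tan (by linarith) h1]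

end Pool.Agent.Results.MP_7aff4e_co.RationalTan
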